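import Pool.Agent.Y152.RP.Fam
import Pool.Agent.Run7.h866.ZP.Master

/-!
One-parameter families of curves in products of modular curves which degenerate at four algebraic
values of the parameter, and general sets of parameters (helper file). The proof is that of
`Pool.Agent.Y152.RP.Fam.family`, with the sets of parameters of `Pool.Agent.Run7.h866.ZP`.
-/

set_option autoImplicit false

namespace Run7.h383.RS

open H294ZP UpperHalfPlane MvPolynomial Pool.Agent.W282.ZP Pool.Agent.Y152.BD
open Pool.Agent.Y152.RP.Fam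
open Pool.Agent.Run7.h866.ZP (Near Hits exists_lift)

/-- The order of the zero of `p` at `a`. -/
noncomputable def orderAt {K : Subfield ℂ} (p : Polynomial K) (a : ℂ) : ℕ :=
  (p.map (algebraMap K ℂ)).rootMultiplicity a

/-- If all but fewer than `L` of the numbers are good, and there are at least `L + 3` of them, then
four are good. -/
theorem four_good {M L : ℕ} (hM : L + 3 ≤ M) (good : Fin M → Prop)
    (h : ∀ I : Finset (Fin M), I.card = L → ∃ l ∈ I, good l) :
    ∃ f : Fin 4 → Fin M, Function.Injective f ∧ ∀ l, good (f l) := by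
  classical
  let S : Finset (Fin M) := Finset.univ.filter good
  have hS : 4 ≤ S.card := by
    by_contra hlt
    push Not at hlt
    have h1 : L ≤ Sᶜ.card := by
      rw [Finset.card_compl, Fintype.card_fin]
      omega
    obtain ⟨I, hI, hc⟩ := Finset.exists_subset_card_eq h1
    obtain ⟨l, hl, hg⟩ := h I hc
    have h2 := hI hl
    rw [Finset.mem_compl] at h2
    exact h2 (Finset.mem_filter.2 ⟨Finset.mem_univ _, hg⟩)
  obtain ⟨I, hI, hc⟩ := Finset.exists_subset_card_eq hS
  refine ⟨fun l => I.orderEmbOfFin hc l, (I.orderEmbOfFin hc).injective, fun l => ?_⟩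
  exact (Finset.mem_filter.1 (hI (I.orderEmbOfFin_mem hc l))).2

/-- **Families of curves with four degenerate members**, and sets `P` of parameters of which all but
finitely many are near to one of any `L` of the `M ≥ L + 3` degenerate parameters. -/
theorem curves (K : Subfield ℂ) [Countable K] (κ : Type) [Finite κ] (N n M T : ℕ)
    (G : κ → MvPolynomial (Fin (N + 1)) (Polynomial K)) (hG : ∀ k, ∃ e, (G k).IsHomogeneous e)
    (A B : Fin n → MvPolynomial (Fin (N + 1)) (Polynomial K)) (δ : Fin n → ℕ)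
    (hA : ∀ i, (A i).IsHomogeneous (δ i)) (hB : ∀ i, (B i).IsHomogeneous (δ i))
    (R : Fin n → Polynomial (Polynomial K)) (hR : ∀ i, (R i).Monic)
    (hT : ∀ i u w, ((R i).coeff u).coeff w ≠ 0 → u ≤ T ∧ w ≤ T)
    (c : Fin n → Polynomial K) (α : Fin M → ℂ) (hα : ∀ l, IsAlgebraic K (α l))
    (hind : IndependentExponents T fun l i => orderAt (c i) (α l))
    (hpos : ∀ l, InGeneralPosition (α l) 1 G A B) (Γ : Finset ℂ)
    (hΓ : ∀ γ ∈ Γ, IsAlgebraic K γ) (P : Set ℂ) (hP : ∀ t ∈ P, IsAlgebraic K t) (L : ℕ)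
    (hL : 1 ≤ L) (hM : L + 3 ≤ M)
    (hits : ∀ I : Finset (Fin M), I.card = L → ∃ J : Finset ℂ, (∀ z ∈ J, ∃ l ∈ I, α l = z) ∧
      Hits K P J) :
    {t : ℂ | t ∈ P ∧ ∃ (r : ℕ)
      (Z : SpecialVariety (algebraMap (Algebra.adjoin ℤ (Γ : Set ℂ)) ℂ) n r),
      r + 2 ≤ n ∧ (scaledImage t G A B R c ∩ Z.locus).Nonempty}.Finite := by
  classical
  let k := algebraicClosure K ℂ
  have hcl : IsAlgClosure K k := inferInstance
  have hac : IsAlgClosed k := hcl.isAlgClosed
  let φ : Polynomial K →+* Polynomial k := Polynomial.mapRingHom (algebraMap K k)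
  let α' : Fin M → k := fun l => ⟨α l, mem_algebraicClosure_iff.2 (hα l)⟩
  have hcast : ∀ l, algebraMap k ℂ (α' l) = α l := fun l => rfl
  have hev : ∀ (t : k), (algebraMap k ℂ).comp ((Polynomial.evalRingHom t).comp φ) =
      evalAt K (algebraMap k ℂ t) := by
    intro t
    refine Polynomial.ringHom_ext (fun a => ?_) ?_
    · simp only [φ, evalAt, RingHom.comp_apply, Polynomial.coe_mapRingHom, Polynomial.map_C,
        Polynomial.coe_evalRingHom, Polynomial.eval_C, AlgHom.toRingHom_eq_coe, RingHom.coe_coe,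
        Polynomial.aeval_C]
      rfl
    · simp only [φ, evalAt, RingHom.comp_apply, Polynomial.coe_mapRingHom, Polynomial.map_X,
        Polynomial.coe_evalRingHom, Polynomial.eval_X, AlgHom.toRingHom_eq_coe, RingHom.coe_coe,
        Polynomial.aeval_X]
  have hspec : ∀ (t : k) (P : MvPolynomial (Fin (N + 1)) (Polynomial K)) (y : Fin (N + 1) → ℂ),
      aeval y (Pool.Agent.TH526.ZL.spec t (MvPolynomial.map φ P)) =
        eval₂ (evalAt K (algebraMap k ℂ t)) y P := by
    intro t P y
    rw [Pool.Agent.TH526.ZL.spec, MvPolynomial.map_map, aeval_def, eval₂_map, hev]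
  have hmult : ∀ (l : Fin M) (i : Fin n), (φ (c i)).rootMultiplicity (α' l) =
      orderAt (c i) (α l) := by
    intro l i
    have h1 := Polynomial.eq_rootMultiplicity_map (p := φ (c i)) (f := algebraMap k ℂ)
      (algebraMap k ℂ).injective (α' l)
    rw [h1, orderAt, hcast]
    congr 1
    simp only [φ, Polynomial.coe_mapRingHom, Polynomial.map_map]
    rfl
  obtain ⟨Γf, -, hΓf⟩ := exists_lift K Γ hΓ
  have hM0 : 0 < M := by omega
  have hc0 : ∀ i, φ (c i) ≠ 0 := by
    intro i h0
    have h1 : 0 < orderAt (c i) (α ⟨0, hM0⟩) := hind.1 ⟨0, hM0⟩ i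
    rw [← hmult, h0, Polynomial.rootMultiplicity_zero] at h1
    exact lt_irrefl _ h1
  obtain ⟨W, hW, hΓW, hnear⟩ := nearV (k := k) (m := 1) (M := M)
    (fun i => MvPolynomial.map φ (G i))
    (fun i => by
      obtain ⟨e, he⟩ := hG i
      exact ⟨e, he.map _⟩)
    (fun i => MvPolynomial.map φ (A i)) (fun i => MvPolynomial.map φ (B i)) δ
    (fun i => (hA i).map _) (fun i => (hB i).map _)
    (fun i => (R i).map φ) (fun i => φ (c i)) α' hc0
    (fun l I hI y h1 h2 => by
      by_contra h0
      obtain ⟨i, hi, h3⟩ := hpos l I hI y ⟨h0, fun i => by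
        have h4 := h1 i
        rw [hspec, hcast] at h4
        exact h4⟩
      apply h3
      have h4 := h2 i hi
      rw [hspec, hspec, hcast] at h4
      exact h4)
    (Γf : Set k) Γf.finite_toSet
  have hRk : ∀ i, ((R i).map φ).Monic := fun i => (hR i).map _
  have hTk : ∀ i u w, (((R i).map φ).coeff u).coeff w ≠ 0 → u ≤ T ∧ w ≤ T := by
    intro i u w h0
    rw [Polynomial.coeff_map] at h0
    change ((Polynomial.mapRingHom (algebraMap K k)) ((R i).coeff u)).coeff w ≠ 0 at h0
    rw [Polynomial.coe_mapRingHom, Polynomial.coeff_map] at h0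
    exact hT i u w fun h1 => h0 (by rw [h1, map_zero])
  -- the finite set of integral numbers, and the exceptional parameters
  let Wc : Finset ℂ := hW.toFinset.image (algebraMap k ℂ)
  have hWalg : ∀ z ∈ Wc, IsAlgebraic K z := by
    intro z hz
    obtain ⟨w, -, rfl⟩ := Finset.mem_image.1 hz
    exact mem_algebraicClosure_iff.1 w.2
  choose! J hJ hJhit using hits
  have hfin : (⋃ I ∈ (Finset.univ.filter fun I : Finset (Fin M) => I.card = L),
      {t : ℂ | t ∈ P ∧ ∀ z ∈ J I, ¬ Near K (Wc : Set ℂ) t z}).Finite :=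
    Set.Finite.biUnion (Finset.finite_toSet _) fun I hI =>
      hJhit I (Finset.mem_filter.1 hI).2 Wc hWalg
  refine hfin.subset ?_
  rintro t ⟨htd, r, Z, hr, x, ⟨y, hy, s, hxy⟩, hxZ⟩
  by_contra hcon
  obtain ⟨f, hf, hfgood⟩ := four_good hM (fun l => Near K (Wc : Set ℂ) t (α l)) (by
    intro I hI
    by_contra hc
    push Not at hc
    refine hcon (Set.mem_biUnion (x := I) (Finset.mem_filter.2 ⟨Finset.mem_univ _, hI⟩)
      ⟨htd, fun z hz => ?_⟩)
    obtain ⟨l, hl, rfl⟩ := hJ I hI z hz
    exact hc l hl)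
  obtain ⟨t', rfl⟩ : ∃ t' : k, algebraMap k ℂ t' = t :=
    ⟨⟨t, mem_algebraicClosure_iff.2 (hP t htd)⟩, rfl⟩
  have hS : AlgebraicIndependent K (Empty.elim : Empty → ℂ) :=
    algebraicIndependent_empty_type_iff.2 (algebraMap K ℂ).injective
  choose V hV1 hVW' hVx using fun l => hfgood l Empty _ hS
  have hVW : ∀ l, ∀ z ∈ W, algebraMap k ℂ z ∈ V l := by
    intro l z hz
    refine hVW' l _ ?_
    rw [Finset.mem_coe]
    exact Finset.mem_image_of_mem _ ((Set.Finite.mem_toFinset hW).2 hz)
  have hV1' : ∀ l, (V l).valuation (algebraMap k ℂ (t' - α' (f l))) < 1 := by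
    intro l
    rw [map_sub]
    exact hV1 l
  have h1 : ∀ i, Z.cls i = none →
      IsIntegral (Algebra.adjoin ℤ (algebraMap k ℂ '' (Γf : Set k))) (x i) := by
    intro i hi
    obtain ⟨z, hz⟩ := hxZ
    rw [hΓf, (hz i).1 hi]
    rcases Z.allowed i with ⟨τ, hτ, hc⟩ | h
    · rw [hc]
      exact (singular_modulus_integral τ hτ).tower_top
    · exact h
  have h2 : ∀ i, Polynomial.eval₂ (Polynomial.aeval (x i) : Polynomial k →ₐ[k] ℂ).toRingHom (s i)
      ((R i).map φ) = 0 := by
    intro i
    rw [Polynomial.eval₂_map]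
    have h1 : ((Polynomial.aeval (x i) : Polynomial k →ₐ[k] ℂ).toRingHom).comp φ =
        (Polynomial.aeval (x i) : Polynomial K →ₐ[K] ℂ).toRingHom := by
      ext z
      · simp [φ]
      · simp [φ]
    rw [h1]
    exact (hxy i).1
  have h3 : ∀ i, aeval y (Pool.Agent.TH526.ZL.spec t' (MvPolynomial.map φ (G i))) = 0 := by
    intro i
    rw [hspec]
    exact hy.2 i
  have h4 : ∀ i, algebraMap k ℂ ((φ (c i)).eval t') *
      aeval y (Pool.Agent.TH526.ZL.spec t' (MvPolynomial.map φ (B i))) * s i =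
      aeval y (Pool.Agent.TH526.ZL.spec t' (MvPolynomial.map φ (A i))) := by
    intro i
    rw [hspec, hspec]
    have h1 : algebraMap k ℂ ((φ (c i)).eval t') = evalAt K (algebraMap k ℂ t') (c i) := by
      rw [← hev t']
      rfl
    rw [h1]
    exact (hxy i).2
  have hΓV : ∀ V : ValuationSubring ℂ, (∀ z ∈ W, algebraMap k ℂ z ∈ V) →
      ∀ z ∈ (Γf : Set k), algebraMap k ℂ z ∈ V := fun V hV z hz => hV z (hΓW hz)
  refine Pool.Agent.TH526.ZL.criterionCurveV (T := T) (fun i => (R i).map φ) hRk hTk V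
    (fun l => (V l).valuation (algebraMap k ℂ (t' - α' (f l)))) hV1'
    (fun l => (hnear (V l) (hVW l)).1)
    (fun l i => (φ (c i)).rootMultiplicity (α' (f l)))
    (fun l i => by
      rw [hmult]
      exact hind.1 (f l) i)
    (fun l l' hll i j hij q hq hqT => by
      rw [hmult, hmult, hmult, hmult]
      exact hind.2 (f l) (f l') (fun h => hll (hf h)) i j hij q hq hqT)
    hr Z.cls (fun i i' => ((Z.mat i).det * (Z.mat i').det).toNat) x s
    (fun i i' => by
      have := mul_pos (Z.det_pos i) (Z.det_pos i')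
      omega)
    (fun l i hi => v_le_of_int (Γf : Set k) (V l) (hΓV _ (hVW l)) (h1 i hi))
    (fun i j l hi hj => (rel_of_locus Z hxZ i j l hi hj).2)
    h2 (fun l i j hij => ?_)
  obtain ⟨E, hE, hE'⟩ := (hnear (V l) (hVW l)).2 (f l) t' (hV1' l) s y hy.1 h3 h4
  by_contra hcon
  push Not at hcon
  have hi : i ∈ E := by
    by_contra h
    exact hcon.1 (hE' i h)
  have hj : j ∈ E := by
    by_contra h
    exact hcon.2 (hE' j h)
  have h5 : ({i, j} : Finset (Fin n)) ⊆ E := by
    intro u hu
    rcases Finset.mem_insert.1 hu with rfl | hu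
    · exact hi
    · rw [Finset.mem_singleton.1 hu]
      exact hj
  have h6 := Finset.card_le_card h5
  rw [Finset.card_pair hij] at h6
  omega

end Run7.h383.RS
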